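import Pool.Agent.K3h61.CA.Stm

/-!
# Clock auctions (MP_9cf523_lc), brick D: the optimum is large with probability at least 1/2
-/

namespace K3h51.CA

open Finset K3h61.CA

/-! ### A Chernoff bound for product weights -/

theorem sum_prod_one {N : Type} [Fintype N] [DecidableEq N] (L : Finset ℕ) (w : ℕ → ℝ)
    (hs : ∑ l ∈ L, w l = 1) :
    ∑ d ∈ Fintype.piFinset (fun _ : N => L), ∏ i, w (d i) = 1 := by
  rw [← Finset.prod_univ_sum (fun _ : N => L) (fun _ l => w l), hs, Finset.prod_const_one]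

theorem chernoff {N : Type} [Fintype N] [DecidableEq N] (L : Finset ℕ) (w : ℕ → ℝ)
    (hw : ∀ l ∈ L, 0 ≤ w l) (hs : ∑ l ∈ L, w l = 1) (A : Finset N) {k : ℕ} (hk : k ∈ L) (c : ℝ) :
    ∑ d ∈ (Fintype.piFinset (fun _ : N => L)).filter
        (fun d => ((A.filter fun i => d i = k).card : ℝ) < c), ∏ i, w (d i) ≤
      Real.exp (c - (A.card : ℝ) * (w k * (1 - Real.exp (-1)))) := by
  classical
  set g : N → ℕ → ℝ := fun i l => if i ∈ A ∧ l = k then Real.exp (-1) else 1 with hg
  have hg0 : ∀ i l, 0 ≤ g i l := by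
    intro i l
    rw [hg]
    dsimp only
    split_ifs
    · exact (Real.exp_pos _).le
    · exact zero_le_one
  have hw0 : ∀ d ∈ Fintype.piFinset (fun _ : N => L), 0 ≤ ∏ i, w (d i) := fun d hd =>
    Finset.prod_nonneg fun i _ => hw _ (Fintype.mem_piFinset.1 hd i)
  have hX : ∀ d : N → ℕ, ∏ i, g i (d i) =
      Real.exp (-((A.filter fun i => d i = k).card : ℝ)) := by
    intro d
    rw [hg]
    dsimp only
    rw [Finset.prod_ite, Finset.prod_const, Finset.prod_const_one, mul_one, ← Real.exp_nat_mul]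
    congr 1
    have : (Finset.univ.filter fun i => i ∈ A ∧ d i = k) = A.filter fun i => d i = k := by
      ext i
      simp
    rw [this]
    ring
  have h1 : ∑ d ∈ (Fintype.piFinset (fun _ : N => L)).filter
        (fun d => ((A.filter fun i => d i = k).card : ℝ) < c), ∏ i, w (d i) ≤
      ∑ d ∈ Fintype.piFinset (fun _ : N => L), Real.exp c * ∏ i, (w (d i) * g i (d i)) := by
    refine le_trans (Finset.sum_le_sum (g := fun d => Real.exp c * ∏ i, (w (d i) * g i (d i)))
      fun d hd => ?_) (Finset.sum_le_sum_of_subset_of_nonneg (Finset.filter_subset _ _)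
        fun d hd _ => ?_)
    · rw [Finset.mem_filter] at hd
      rw [Finset.prod_mul_distrib, hX, mul_left_comm, ← Real.exp_add]
      refine le_mul_of_one_le_right (hw0 d hd.1) ?_
      rw [Real.one_le_exp_iff]
      linarith [hd.2]
    · refine mul_nonneg (Real.exp_pos _).le (Finset.prod_nonneg fun i _ =>
        mul_nonneg (hw _ (Fintype.mem_piFinset.1 hd i)) (hg0 _ _))
  refine h1.trans ?_
  rw [← Finset.mul_sum, ← Finset.prod_univ_sum (fun _ : N => L) (fun i l => w l * g i l)]
  rw [sub_eq_add_neg, Real.exp_add]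
  refine mul_le_mul_of_nonneg_left ?_ (Real.exp_pos _).le
  have h2 : ∀ i, ∑ l ∈ L, w l * g i l =
      if i ∈ A then 1 - w k * (1 - Real.exp (-1)) else 1 := by
    intro i
    by_cases hi : i ∈ A
    · rw [if_pos hi]
      have h3 : ∀ l ∈ L, w l * g i l = w l - if l = k then w k * (1 - Real.exp (-1)) else 0 := by
        intro l _
        rw [hg]
        dsimp only
        by_cases hl : l = k
        · rw [if_pos ⟨hi, hl⟩, if_pos hl, hl]
          ring
        · rw [if_neg (fun h => hl h.2), if_neg hl]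
          ring
      rw [Finset.sum_congr rfl h3, Finset.sum_sub_distrib, hs, Finset.sum_ite_eq' L k, if_pos hk]
    · rw [if_neg hi]
      have h3 : ∀ l ∈ L, w l * g i l = w l := by
        intro l _
        rw [hg]
        dsimp only
        rw [if_neg (fun h => hi h.1), mul_one]
      rw [Finset.sum_congr rfl h3, hs]
  rw [Finset.prod_congr rfl fun i _ => h2 i, Finset.prod_ite_mem, Finset.univ_inter,
    Finset.prod_const]
  have h4 : -((A.card : ℝ) * (w k * (1 - Real.exp (-1)))) =
      (A.card : ℝ) * (-(w k * (1 - Real.exp (-1)))) := by ring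
  rw [h4, Real.exp_nat_mul]
  have hk1 : w k ≤ 1 := by
    rw [← hs]
    exact Finset.single_le_sum (fun l hl => hw l hl) hk
  have he1 : Real.exp (-1) ≤ 1 := by
    rw [← Real.exp_zero]
    exact Real.exp_le_exp.2 (by norm_num)
  have he0 := Real.exp_pos (-1)
  refine pow_le_pow_left₀ ?_ ?_ _
  · nlinarith [hw k hk, mul_nonneg (sub_nonneg.2 hk1) (sub_nonneg.2 he1)]
  · have := Real.add_one_le_exp (-(w k * (1 - Real.exp (-1))))
    linarith

/-! ### The numbers -/

theorem nn_succ {T B k : ℕ} (hk : k < T) : nn T B k = nn T B (k + 1) * nn T B (k + 1) := by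
  unfold nn
  rw [← pow_add]
  congr 1
  have : T - k = (T - (k + 1)) + 1 := by omega
  rw [this, pow_succ]
  ring

theorem nn_pos {T B k : ℕ} (hB : 0 < B) : 0 < nn T B k := Nat.pow_pos hB

theorem QQ_succ {T B k : ℕ} (hB : 0 < B) (hk : k < T) :
    QQ T B k = QQ T B (k + 1) / ((B : ℝ) * (nn T B (k + 1) : ℝ)) := by
  unfold QQ
  rw [nn_succ hk]
  have h1 : (0 : ℝ) < (nn T B (k + 1) : ℝ) := by exact_mod_cast nn_pos hB
  have h2 : (0 : ℝ) < (B : ℝ) := by exact_mod_cast hB
  unfold mu
  push_cast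
  field_simp
  ring

theorem QQ_top {T B : ℕ} (hB : 0 < B) : QQ T B T = 1 := by
  unfold QQ mu nn
  have h2 : (0 : ℝ) < (B : ℝ) := by exact_mod_cast hB
  rw [Nat.sub_self, pow_zero, mul_one]
  push_cast
  exact div_self (pow_pos h2 _).ne'

theorem QQ_nonneg (T B k : ℕ) : 0 ≤ QQ T B k := div_nonneg (Nat.cast_nonneg _) (Nat.cast_nonneg _)

theorem QQ_half {T B k : ℕ} (hB : 2 ≤ B) (hk : k < T) : QQ T B k ≤ QQ T B (k + 1) / 2 := by
  rw [QQ_succ (by omega) hk]
  have h1 : (1 : ℝ) ≤ (nn T B (k + 1) : ℝ) := by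
    exact_mod_cast nn_pos (T := T) (k := k + 1) (by omega : 0 < B)
  have h2 : (2 : ℝ) ≤ (B : ℝ) := by exact_mod_cast hB
  refine div_le_div_of_nonneg_left (QQ_nonneg _ _ _) (by norm_num) ?_
  nlinarith

theorem om_half {T B k : ℕ} (hB : 2 ≤ B) (hk : k ≤ T) : QQ T B k / 2 ≤ om T B k := by
  unfold om
  have h0 := QQ_nonneg T B k
  split_ifs with h
  · subst h
    linarith
  · obtain ⟨l, rfl⟩ : ∃ l, k = l + 1 := ⟨k - 1, by omega⟩
    rw [Nat.add_sub_cancel]
    have := QQ_half (T := T) hB (by omega : l < T)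
    linarith

theorem om_nonneg {T B k : ℕ} (hB : 2 ≤ B) (hk : k ≤ T) : 0 ≤ om T B k :=
  le_trans (div_nonneg (QQ_nonneg _ _ _) (by norm_num)) (om_half hB hk)

theorem om_sum (T B : ℕ) (j : ℕ) : ∑ k ∈ range (j + 1), om T B k = QQ T B j := by
  induction j with
  | zero => simp [om]
  | succ j ih =>
    rw [Finset.sum_range_succ, ih]
    unfold om
    rw [if_neg (Nat.succ_ne_zero j), Nat.add_sub_cancel]
    ring

theorem card_PT (N : Type) [Fintype N] (m : ℕ → ℕ) (k : ℕ) :
    Fintype.card (PT N m k) = Fintype.card N ^ (∑ j ∈ range k, m j) := by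
  classical
  induction k with
  | zero =>
    have h : Fintype.card (PT N m 0) = Fintype.card Unit := Fintype.card_congr (Equiv.refl _)
    rw [h]
    simp
  | succ k ih =>
    have h : Fintype.card (PT N m (k + 1)) = Fintype.card (PT N m k × (Fin (m k) → N)) :=
      Fintype.card_congr (Equiv.refl _)
    rw [h, Fintype.card_prod, ih, Fintype.card_fun, Fintype.card_fin, ← pow_add,
      Finset.sum_range_succ]

/-! ### A profile with enough buyers of level `k` in all regions of depth `k` -/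

/-- a code of a head -/
theorem exists_code {N : Type} [DecidableEq N] {M : ℕ} {Y : Finset N} (hM : 0 < M)
    (hY : (M : ℝ) / 4 ≤ (Y.card : ℝ)) :
    ∃ h : Fin M → N, univ.image h ⊆ Y ∧ (M : ℝ) / 4 ≤ ((univ.image h).card : ℝ) := by
  classical
  have hMr : (0 : ℝ) < M := by exact_mod_cast hM
  obtain ⟨Y', hY', hc⟩ := Finset.exists_subset_card_eq (s := Y) (n := min Y.card M)
    (min_le_left _ _)
  have hYc : 0 < Y.card := by
    have : (0 : ℝ) < Y.card := by linarith
    exact_mod_cast this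
  have hpos : 0 < Y'.card := by
    rw [hc]
    exact lt_min hYc hM
  have hne : Y'.Nonempty := Finset.card_pos.1 hpos
  obtain ⟨y0, hy0⟩ := hne
  have hle : Y'.card ≤ M := hc ▸ min_le_right _ _
  let e : Fin Y'.card ≃ Y' := (Y'.equivFin).symm
  refine ⟨fun i => if hi : i.1 < Y'.card then (e ⟨i.1, hi⟩ : N) else y0, ?_, ?_⟩
  · intro y hy
    rw [Finset.mem_image] at hy
    obtain ⟨i, -, rfl⟩ := hy
    split_ifs with hi
    · exact hY' (e ⟨i.1, hi⟩).2
    · exact hY' hy0
  · have himg : Y' ⊆ univ.image (fun i : Fin M => if hi : i.1 < Y'.card then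
        (e ⟨i.1, hi⟩ : N) else y0) := by
      intro y hy
      rw [Finset.mem_image]
      have hlt := (e.symm ⟨y, hy⟩).2
      refine ⟨⟨(e.symm ⟨y, hy⟩).1, lt_of_lt_of_le hlt hle⟩, Finset.mem_univ _, ?_⟩
      rw [dif_pos hlt]
      simp
    have h1 := Finset.card_le_card himg
    have h2 : (M : ℝ) / 4 ≤ (Y'.card : ℝ) := by
      rw [hc]
      rcases le_total Y.card M with h | h
      · rw [min_eq_left h]
        exact hY
      · rw [min_eq_right h]
        linarith
    exact h2.trans (by exact_mod_cast h1)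

theorem exists_node {N : Type} [Fintype N] [DecidableEq N] {T B : ℕ}
    (R : ∀ k, PT N (mu B) k → Finset N) (hB : 0 < B) (d : N → ℕ)
    (hgood : ∀ k < T, ∀ p : PT N (mu B) k,
      (mu B k : ℝ) / 4 ≤ (((R k p).filter fun i => d i = k).card : ℝ)) :
    ∀ j ≤ T, ∃ q : PT N (mu B) j, ∃ S ⊆ HU R 0 j q, (∀ i ∈ S, d i < j) ∧
      (j : ℝ) * (B : ℝ) ^ (T + 1) / 4 ≤ ∑ i ∈ S, (av T B (d i) : ℝ) := by
  intro j
  induction j with
  | zero =>
    intro _
    refine ⟨(() : Unit), ∅, Finset.empty_subset _, fun i hi => absurd hi (Finset.notMem_empty _), ?_⟩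
    simp
  | succ j ih =>
    intro hj
    obtain ⟨q, S, hS, hlt, hv⟩ := ih (by omega)
    obtain ⟨h, h1, h2⟩ := exists_code (M := mu B j) (Nat.pow_pos hB) (hgood j (by omega) q)
    have hhd : hd R j (child q h) = univ.image h := by
      change (univ.image h) ∩ R j q = univ.image h
      refine Finset.inter_eq_left.2 fun i hi => ?_
      exact (Finset.mem_filter.1 (h1 hi)).1
    have hHU : HU R 0 (j + 1) (child q h) = HU R 0 j q ∪ univ.image h := by
      rw [← hhd]
      change (if 0 ≤ j then HU R 0 j q ∪ hd R j (child q h) else ∅) = _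
      rw [if_pos (Nat.zero_le j)]
    have hlev : ∀ i ∈ univ.image h, d i = j := fun i hi => (Finset.mem_filter.1 (h1 hi)).2
    refine ⟨child q h, S ∪ univ.image h, ?_, ?_, ?_⟩
    · rw [hHU]
      exact Finset.union_subset_union hS (Finset.Subset.refl _)
    · intro i hi
      rcases Finset.mem_union.1 hi with hi | hi
      · exact (hlt i hi).trans (Nat.lt_succ_self j)
      · rw [hlev i hi]
        exact Nat.lt_succ_self j
    · have hdis : Disjoint S (univ.image h) := by
        rw [Finset.disjoint_left]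
        intro i hi hi'
        have := hlt i hi
        rw [hlev i hi'] at this
        exact lt_irrefl _ this
      rw [Finset.sum_union hdis]
      have h3 : ∑ i ∈ univ.image h, (av T B (d i) : ℝ) =
          ((univ.image h).card : ℝ) * (B : ℝ) ^ (T - j) := by
        rw [Finset.sum_congr rfl (fun i hi => by rw [hlev i hi] : ∀ i ∈ univ.image h,
          (av T B (d i) : ℝ) = (av T B j : ℝ)), Finset.sum_const, nsmul_eq_mul]
        unfold av
        push_cast
        rfl
      rw [h3]
      have hBr : (0 : ℝ) < (B : ℝ) := by exact_mod_cast hB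
      have h4 : (B : ℝ) ^ (T + 1) / 4 ≤ ((univ.image h).card : ℝ) * (B : ℝ) ^ (T - j) := by
        have h5 : (B : ℝ) ^ (T + 1) / 4 = ((mu B j : ℕ) : ℝ) / 4 * (B : ℝ) ^ (T - j) := by
          unfold mu
          push_cast
          have : T + 1 = (j + 1) + (T - j) := by omega
          rw [this, pow_add]
          have h6 : j + 1 + (T - j) - 1 = T := by omega
          ring
        rw [h5]
        exact mul_le_mul_of_nonneg_right h2 (pow_pos hBr _).le
      push_cast
      have : ((j : ℝ) + 1) * (B : ℝ) ^ (T + 1) / 4 =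
        (j : ℝ) * (B : ℝ) ^ (T + 1) / 4 + (B : ℝ) ^ (T + 1) / 4 := by ring
      rw [this]
      exact add_le_add hv h4

/-- brick D -/
theorem t_D : S_D := by
  classical
  intro N _ _ T B ε R hBig hN hR G hG
  -- the numbers
  have hε := hBig.epos
  have hT1 : (1 : ℝ) ≤ (T : ℝ) := by exact_mod_cast hBig.one
  have hBT := hBig.BlT
  have hBr : (100 : ℝ) ≤ (B : ℝ) := by linarith
  have hB2 : 2 ≤ B := by
    have : (2 : ℝ) ≤ (B : ℝ) := by linarith
    exact_mod_cast this
  have hε1 : ε ≤ 1 / 100 := by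
    have h1 : 100 * ε ≤ 100 * ε * (T : ℝ) := le_mul_of_one_le_right (by positivity) hT1
    linarith [hBig.eT]
  set L := range (T + 1) with hL
  have hw : ∀ l ∈ L, 0 ≤ om T B l := fun l hl =>
    om_nonneg hB2 (Nat.lt_succ_iff.1 (Finset.mem_range.1 hl))
  have hs : ∑ l ∈ L, om T B l = 1 := by rw [hL, om_sum, QQ_top (by omega)]
  set Ω := Fintype.piFinset (fun _ : N => L) with hΩ
  set W : (N → ℕ) → ℝ := fun d => ∏ i, om T B (d i) with hW
  have hW0 : ∀ d ∈ Ω, 0 ≤ W d := fun d hd =>
    Finset.prod_nonneg fun i _ => hw _ (Fintype.mem_piFinset.1 hd i)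
  have htot : ∑ d ∈ Ω, W d = 1 := sum_prod_one L _ hs
  -- the bad profiles
  let bad : ∀ k : ℕ, PT N (mu B) k → Finset (N → ℕ) := fun k p =>
    Ω.filter fun d => (((R k p).filter fun i => d i = k).card : ℝ) < (mu B k : ℝ) / 4
  have hbad : ∀ k ∈ range T, ∀ p : PT N (mu B) k,
      ∑ d ∈ bad k p, W d ≤ Real.exp (-(ε ^ 2 * (mu B k : ℝ))) := by
    intro k hk p
    have hkT : k < T := Finset.mem_range.1 hk
    have h1 := chernoff L (om T B) hw hs (R k p) (k := k)
      (Finset.mem_range.2 (by omega)) ((mu B k : ℝ) / 4)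
    refine h1.trans (Real.exp_le_exp.2 ?_)
    rw [hR.card k hkT.le p]
    have hnn : (0 : ℝ) < (nn T B k : ℝ) := by exact_mod_cast nn_pos (by omega : 0 < B)
    have h2 : (mu B k : ℝ) / 2 ≤ (nn T B k : ℝ) * om T B k := by
      have h3 := om_half (T := T) hB2 hkT.le
      have h4 : (nn T B k : ℝ) * QQ T B k = (mu B k : ℝ) := by
        unfold QQ
        field_simp
      nlinarith
    have he : Real.exp (-1) ≤ 0.37 := by
      have h5 : Real.exp (-1) = (Real.exp 1)⁻¹ := Real.exp_neg 1
      have h6 := Real.exp_one_gt_d9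
      rw [h5, inv_le_comm₀ (Real.exp_pos 1) (by norm_num)]
      refine le_trans ?_ h6.le
      norm_num
    have hmu : (0 : ℝ) ≤ (mu B k : ℝ) := Nat.cast_nonneg _
    have h7 : (mu B k : ℝ) / 2 * 0.63 ≤
        (nn T B k : ℝ) * (om T B k * (1 - Real.exp (-1))) := by
      rw [← mul_assoc]
      refine mul_le_mul h2 (by linarith) (by norm_num) (le_trans (by positivity) h2)
    have h8 : ε ^ 2 * (mu B k : ℝ) ≤ 0.06 * (mu B k : ℝ) := by
      refine mul_le_mul_of_nonneg_right ?_ hmu
      nlinarith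
    linarith
  have hbadk : ∀ k ∈ range T, ∑ p : PT N (mu B) k, ∑ d ∈ bad k p, W d ≤
      Real.exp (-(ε ^ 2 * (B : ℝ) / 2)) := by
    intro k hk
    refine le_trans (Finset.sum_le_sum fun p _ => hbad k hk p) ?_
    rw [Finset.sum_const, nsmul_eq_mul, Finset.card_univ, card_PT, hN]
    push_cast
    exact hBig.nodes k (Finset.mem_range.1 hk).le
  let Bd : Finset (N → ℕ) := (range T).biUnion fun k => univ.biUnion fun p => bad k p
  have hBd : ∑ d ∈ Bd, W d ≤ 1 / 2 := by
    have hnn : ∀ k (p : PT N (mu B) k), ∀ d ∈ bad k p, 0 ≤ W d := fun k p d hd =>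
      hW0 d (Finset.mem_filter.1 hd).1
    have h1 : ∑ d ∈ Bd, W d ≤ ∑ k ∈ range T, ∑ p : PT N (mu B) k, ∑ d ∈ bad k p, W d := by
      have hmem : ∀ d ∈ Bd, d ∈ Ω := by
        intro d hd
        obtain ⟨k, -, hd⟩ := Finset.mem_biUnion.1 hd
        obtain ⟨p, -, hd⟩ := Finset.mem_biUnion.1 hd
        exact (Finset.mem_filter.1 hd).1
      have h2 : ∀ k (p : PT N (mu B) k), ∑ d ∈ bad k p, W d =
          ∑ d ∈ Ω, if d ∈ bad k p then W d else 0 := by
        intro k p
        rw [← Finset.sum_filter]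
        refine Finset.sum_congr ?_ fun _ _ => rfl
        refine Finset.ext fun d => ?_
        rw [Finset.mem_filter (p := fun d => d ∈ bad k p)]
        exact ⟨fun h => ⟨(Finset.mem_filter.1 h).1, h⟩, fun h => h.2⟩
      have h3 : ∑ d ∈ Bd, W d = ∑ d ∈ Ω, if d ∈ Bd then W d else 0 := by
        rw [← Finset.sum_filter]
        refine Finset.sum_congr ?_ fun _ _ => rfl
        ext d
        rw [Finset.mem_filter]
        exact ⟨fun h => ⟨hmem d h, h⟩, fun h => h.2⟩
      have h4 : ∑ k ∈ range T, ∑ p : PT N (mu B) k, ∑ d ∈ bad k p, W d =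
          ∑ d ∈ Ω, ∑ k ∈ range T, ∑ p : PT N (mu B) k, if d ∈ bad k p then W d else 0 := by
        rw [Finset.sum_comm]
        refine Finset.sum_congr rfl fun k _ => ?_
        rw [Finset.sum_comm]
        exact Finset.sum_congr rfl fun p _ => h2 k p
      rw [h3, h4]
      refine Finset.sum_le_sum fun d hd => ?_
      split_ifs with h
      · obtain ⟨k, hk, h⟩ := Finset.mem_biUnion.1 h
        obtain ⟨p, hp, h⟩ := Finset.mem_biUnion.1 h
        have h0 : ∀ k (p : PT N (mu B) k), 0 ≤ if d ∈ bad k p then W d else 0 := by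
          intro k p
          split_ifs
          · exact hW0 d hd
          · exact le_rfl
        calc W d = if d ∈ bad k p then W d else 0 := by rw [if_pos h]
          _ ≤ ∑ p : PT N (mu B) k, if d ∈ bad k p then W d else 0 :=
            Finset.single_le_sum (f := fun p => if d ∈ bad k p then W d else 0)
              (fun p _ => h0 k p) hp
          _ ≤ _ := Finset.single_le_sum
              (f := fun k => ∑ p : PT N (mu B) k, if d ∈ bad k p then W d else 0)
              (fun k _ => Finset.sum_nonneg fun p _ => h0 k p) hk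
      · refine Finset.sum_nonneg fun k _ => Finset.sum_nonneg fun p _ => ?_
        split_ifs
        · exact hW0 d hd
        · exact le_rfl
    refine h1.trans ((Finset.sum_le_sum hbadk).trans ?_)
    rw [Finset.sum_const, nsmul_eq_mul, Finset.card_range]
    exact hBig.smallT
  -- the good profiles
  have hgood : ∀ d ∈ Ω, d ∉ Bd → d ∈ G := by
    intro d hd hdB
    apply hG d hd
    obtain ⟨q, S, hS, -, hv⟩ := exists_node R (by omega : 0 < B) d (T := T) (by
      intro k hk p
      by_contra hcon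
      apply hdB
      refine Finset.mem_biUnion.2 ⟨k, Finset.mem_range.2 hk,
        Finset.mem_biUnion.2 ⟨p, Finset.mem_univ _, Finset.mem_filter.2 ⟨hd, ?_⟩⟩⟩
      exact not_le.1 hcon) T le_rfl
    exact ⟨q, S, hS.trans (Finset.subset_union_left), hv⟩
  have h5 : ∑ d ∈ Ω.filter (fun d => d ∉ Bd), W d ≤
      ∑ d ∈ G.filter (fun d => d ∈ Ω), W d := by
    refine Finset.sum_le_sum_of_subset_of_nonneg ?_ ?_
    · intro d hd
      rw [Finset.mem_filter] at hd ⊢
      exact ⟨hgood d hd.1 hd.2, hd.1⟩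
    · intro d hd _
      exact hW0 d (Finset.mem_filter.1 hd).2
  have h6 : ∑ d ∈ Ω.filter (fun d => d ∈ Bd), W d ≤ ∑ d ∈ Bd, W d := by
    refine Finset.sum_le_sum_of_subset_of_nonneg ?_ ?_
    · intro d hd
      exact (Finset.mem_filter.1 hd).2
    · intro d hd _
      obtain ⟨k, -, hd⟩ := Finset.mem_biUnion.1 hd
      obtain ⟨p, -, hd⟩ := Finset.mem_biUnion.1 hd
      exact hW0 d (Finset.mem_filter.1 hd).1
  have h7 := Finset.sum_filter_add_sum_filter_not Ω (fun d => d ∈ Bd) W
  have h8 : 1 / 2 ≤ ∑ d ∈ G.filter (fun d => d ∈ Ω), W d := by linarith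
  exact h8

end K3h51.CA
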